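import Mathlib
import Pool.Agent.X184.SS.Stm

/-! Part HER of project SS (MP_3cdc4e_an). -/

namespace Pool.Agent.X153.SS

open Finset Pool.Agent.X184.SS

theorem t_HER : S_HER := by
  intro hU n
  induction n with
  | zero =>
    intro F G hF hG
    have h1 : F.card ≤ 1 := hF
    exact le_trans (Finset.card_le_card hG) h1
  | succ n ih =>
    intro F G hF hG
    obtain ⟨k, Gs, h1, h2, h3, h4⟩ := hF
    have hGe : G = univ.biUnion (fun i => G ∩ Gs i) := by
      ext a
      simp only [Finset.mem_biUnion, Finset.mem_univ, true_and, Finset.mem_inter]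
      constructor
      · intro ha
        have haF := hG ha
        rw [h3, Finset.mem_biUnion] at haF
        obtain ⟨i, _, hi⟩ := haF
        exact ⟨i, ha, hi⟩
      · rintro ⟨i, ha, _⟩
        exact ha
    rw [hGe]
    apply hU n k (fun i => G ∩ Gs i)
    · intro i
      exact ih (Gs i) (G ∩ Gs i) (h1 i).2 Finset.inter_subset_right
    · intro i j hij a ha b hb
      exact h2 i j hij a (Finset.mem_inter.1 ha).2 b (Finset.mem_inter.1 hb).2
    · intro i a ha
      exact h4 a (hG (Finset.mem_inter.1 ha).1)

end Pool.Agent.X153.SS
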