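import Mathlib
import Pool.Agent.X184.SS.Stm2

/-! Part JOINT of project SP (MP_a8437e_an). -/

namespace Pool.Agent.X153.SS

open Finset Pool.Agent.X184.SS

theorem t_JOINT : S_JOINT := by
  classical
  intro hU hH hL n N hN ε hε d u
  obtain ⟨p, hp⟩ := hL n N hN ε hε
  choose Z G h1 h2 h3 h4 h5 h6 h7 h8 using hp
  let U : ℕ → ℕ := fun l => Nat.rec (max u (d * p)) (fun _ x => max x ((Z x).support.sup id + 1)) l
  have U0 : U 0 = max u (d * p) := rfl
  have Us : ∀ l, U (l + 1) = max (U l) ((Z (U l)).support.sup id + 1) := fun l => rfl
  have Umono : Monotone U := monotone_nat_of_le_succ fun l => by rw [Us]; exact le_max_left _ _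
  have Ule : ∀ l, max u (d * p) ≤ U l := fun l => by rw [← U0]; exact Umono (Nat.zero_le l)
  have hlt : ∀ l l', l < l' → ∀ a ∈ (Z (U l)).support, ∀ b ∈ (Z (U l')).support, a < b := by
    intro l l' hll a ha b hb
    have e1 : a ≤ (Z (U l)).support.sup id := Finset.le_sup (f := id) ha
    have e2 : (Z (U l)).support.sup id + 1 ≤ U (l + 1) := by rw [Us]; exact le_max_right _ _
    have e3 : U (l + 1) ≤ U l' := Umono hll
    have e4 := (h3 (U l') b hb).2
    omega
  refine ⟨fun l => if l < d then Z (U l) else 0, ?_, ?_, ?_, ?_, ?_, ?_, ?_⟩
  · intro l j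
    by_cases h : l < d
    · simp only [h, if_true]; exact h1 _ _
    · simp only [h, if_false]; simp
  · intro l hl
    simp only [hl, if_true]
    exact h2 _
  · intro l hl
    have : ¬ l < d := by omega
    simp only [this, if_false]
  · intro l j hj
    by_cases h : l < d
    · simp only [h, if_true] at hj
      have := h3 _ j hj
      refine ⟨this.1, ?_⟩
      have h9 := Ule l
      have h10 : u ≤ max u (d * p) := le_max_left _ _
      omega
    · simp only [h, if_false] at hj
      simp at hj
  · intro l l' hll
    rw [Finset.disjoint_left]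
    intro j hj hj'
    by_cases h : l < d
    · by_cases h' : l' < d
      · simp only [h, if_true] at hj
        simp only [h', if_true] at hj'
        rcases lt_or_gt_of_ne hll with h9 | h9
        · exact absurd (hlt l l' h9 j hj j hj') (lt_irrefl _)
        · exact absurd (hlt l' l h9 j hj' j hj) (lt_irrefl _)
      · simp only [h', if_false] at hj'
        simp at hj'
    · simp only [h, if_false] at hj
      simp at hj
  · -- the union
    have hmod : ∀ i : Fin (d * p), i.val % p < p := by
      intro i
      apply Nat.mod_lt
      rcases Nat.eq_zero_or_pos p with h | h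
      · have := i.2
        subst h
        simp at this
      · exact h
    have hbig := hU n (d * p) (fun i => G (U (i.val / p)) ⟨i.val % p, hmod i⟩)
      (fun i => h5 _ _) (by
        intro i j hij a ha b hb
        have hij' : i.val < j.val := hij
        have hle : i.val / p ≤ j.val / p := Nat.div_le_div_right hij'.le
        rcases Nat.lt_or_ge (i.val / p) (j.val / p) with h | h
        · exact hlt _ _ h a (h7 _ _ a ha) b (h7 _ _ b hb)
        · have heq : i.val / p = j.val / p := le_antisymm hle h
          have hr : i.val % p < j.val % p := by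
            have e1 := Nat.div_add_mod i.val p
            have e2 := Nat.div_add_mod j.val p
            rw [heq] at e1
            omega
          have hb' : b ∈ G (U (i.val / p)) ⟨j.val % p, hmod j⟩ := by rw [heq]; exact hb
          exact h6 (U (i.val / p)) ⟨i.val % p, hmod i⟩ ⟨j.val % p, hmod j⟩ hr a ha b hb') (by
        intro i a ha
        have h9 := (h3 _ a (h7 _ _ a ha)).2
        have h10 := Ule (i.val / p)
        have h11 : d * p ≤ max u (d * p) := le_max_right _ _
        omega)
    refine hH (n + 1) _ _ hbig ?_
    intro a ha
    rw [Finset.mem_biUnion] at ha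
    obtain ⟨l, hl, ha⟩ := ha
    rw [Finset.mem_range] at hl
    simp only [hl, if_true] at ha
    have h9 := h4 _ ha
    rw [Finset.mem_biUnion] at h9
    obtain ⟨r, _, hr⟩ := h9
    rw [Finset.mem_biUnion]
    have hp0 : 0 < p := lt_of_le_of_lt (Nat.zero_le _) r.2
    have hidx : l * p + r.val < d * p := by
      have : (l + 1) * p ≤ d * p := Nat.mul_le_mul_right p hl
      have e : (l + 1) * p = l * p + p := by ring
      have := r.2
      omega
    refine ⟨⟨l * p + r.val, hidx⟩, Finset.mem_univ _, ?_⟩
    have e1 : (l * p + r.val) / p = l := by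
      rw [mul_comm, Nat.mul_add_div hp0, Nat.div_eq_of_lt r.2, add_zero]
    have e2 : (l * p + r.val) % p = r.val := by
      rw [mul_comm, Nat.mul_add_mod, Nat.mod_eq_of_lt r.2]
    simp only [e1, e2]
    exact hr
  · intro l F hF
    by_cases h : l < d
    · simp only [h, if_true]; exact h8 _ F hF
    · simp only [h, if_false]
      simp
      exact hε.le

end Pool.Agent.X153.SS
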